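import Pool.Agent.Helper92.PU.St

/-!
# Project PU (MP_ad0dc2_nt): module TR (few solutions of Thue equations, uniformly in the form)
-/

set_option autoImplicit false
set_option linter.unusedVariables false

open Finset

noncomputable section

namespace Pool.Agent.Helper6.PU

open Pool.Agent.Helper92.PU Pool.Agent.Helper92.PW

theorem TR_sub {d L : ℕ} {m : ℝ} {g : ℕ → ℝ} {W V : Finset (ℤ × ℤ)} (h : TW d L m g W)
    (hV : V ⊆ W) : TW d L m g V := by
  refine ⟨fun w hw => h.int w ?_, fun w hw => h.val w (hV hw), fun α α' γ hα => ?_⟩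
  · exact AddSubgroup.closure_mono (by exact_mod_cast hV) hw
  · exact (Finset.card_le_card (Finset.filter_subset_filter _ hV)).trans (h.lin α α' γ hα)

theorem TR_zero {d L : ℕ} {m : ℝ} {g : ℕ → ℝ} {W : Finset (ℤ × ℤ)} (h : TW d L m g W)
    (h0 : ∀ w ∈ W, ∀ w' ∈ W, dt2 w w' = 0) : W.card ≤ L := by
  by_cases hw : ∃ w1 ∈ W, w1 ≠ 0
  · obtain ⟨w1, hw1, hne⟩ := hw
    have h1 := h.lin (-w1.2) w1.1 0 (by
      by_contra hcon
      push Not at hcon
      apply hne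
      ext
      · exact hcon.2
      · have := hcon.1
        simpa using this)
    have h2 : (W.filter fun w => -w1.2 * w.1 + w1.1 * w.2 = 0) = W := by
      refine Finset.filter_true_of_mem fun w hw' => ?_
      have h3 := h0 w1 hw1 w hw'
      unfold dt2 at h3
      linarith
    rw [h2] at h1
    exact h1
  · push Not at hw
    have h1 := h.lin 1 0 0 (Or.inl one_ne_zero)
    have h2 : (W.filter fun w => (1 : ℤ) * w.1 + 0 * w.2 = 0) = W := by
      refine Finset.filter_true_of_mem fun w hw' => ?_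
      rw [hw w hw']
      simp
    rw [h2] at h1
    exact h1

theorem TR_claim (hTS : StTS) {d L : ℕ} {m K τ : ℝ} (hL : 1 ≤ L) (hK : 1 ≤ K) (hτ : 0 < τ)
    (hτ2 : τ ≤ 1 / 2)
    (hTC : ∀ (g : ℕ → ℝ) (W : Finset (ℤ × ℤ)) (w1 w2 : ℤ × ℤ), TW d L m g W → w1 ∈ W → w2 ∈ W →
      dt2 w1 w2 ≠ 0 → (∀ w ∈ W, ∀ w' ∈ W, |dt2 w w'| ≤ |dt2 w1 w2|) →
      (∃ p : Fin (d + 1) → ℤ × ℤ, (∀ j, p j ∈ W) ∧
        ∀ i j, i ≠ j → τ ^ 6 * |(dt2 w1 w2 : ℝ)| ≤ |(dt2 (p i) (p j) : ℝ)|) →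
      (W.card : ℝ) ≤ K * |m| / (τ ^ 6) ^ (d * (d + 1))) (g : ℕ → ℝ) :
    ∀ (r : ℕ) (W : Finset (ℤ × ℤ)) (X : ℝ), TW d L m g W → X * (τ ^ 3) ^ r < 1 →
      (∀ w ∈ W, ∀ w' ∈ W, |(dt2 w w' : ℝ)| ≤ X) →
      (W.card : ℝ) ≤ ((d : ℝ) + 1) ^ r * (L + K * |m| / (τ ^ 6) ^ (d * (d + 1))) := by
  set E : ℝ := K * |m| / (τ ^ 6) ^ (d * (d + 1)) with hE
  have hE0 : 0 ≤ E := by
    rw [hE]
    positivity
  have hd1 : (1 : ℝ) ≤ (d : ℝ) + 1 := by
    have : (0 : ℝ) ≤ d := Nat.cast_nonneg d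
    linarith
  have hL0 : (0 : ℝ) ≤ L := Nat.cast_nonneg L
  have hbig : ∀ r : ℕ, (L : ℝ) + E ≤ ((d : ℝ) + 1) ^ r * (L + E) := fun r =>
    le_mul_of_one_le_left (by positivity) (one_le_pow₀ hd1)
  intro r
  induction r with
  | zero =>
    intro W X hW hX hWX
    have h1 := TR_zero hW (fun w hw w' hw' => by
      have h2 := hWX w hw w' hw'
      rw [pow_zero, mul_one] at hX
      have h3 : |(dt2 w w' : ℝ)| < 1 := lt_of_le_of_lt h2 hX
      have h4 : |dt2 w w'| < 1 := by exact_mod_cast h3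
      exact Int.abs_lt_one_iff.1 h4)
    have h2 : (W.card : ℝ) ≤ L := by exact_mod_cast h1
    have h3 := hbig 0
    linarith
  | succ r ih =>
    intro W X hW hX hWX
    by_cases h0 : ∀ w ∈ W, ∀ w' ∈ W, dt2 w w' = 0
    · have h2 : (W.card : ℝ) ≤ L := by exact_mod_cast TR_zero hW h0
      have h3 := hbig (r + 1)
      linarith
    · push Not at h0
      obtain ⟨a, ha, b, hb, hab⟩ := h0
      obtain ⟨p, hp, hmax⟩ := Finset.exists_max_image (W ×ˢ W)
        (fun p : (ℤ × ℤ) × (ℤ × ℤ) => |dt2 p.1 p.2|) ⟨(a, b), by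
          rw [Finset.mem_product]
          exact ⟨ha, hb⟩⟩
      rw [Finset.mem_product] at hp
      have hm : ∀ w ∈ W, ∀ w' ∈ W, |dt2 w w'| ≤ |dt2 p.1 p.2| := fun w hw w' hw' =>
        hmax (w, w') (by rw [Finset.mem_product]; exact ⟨hw, hw'⟩)
      have hne : dt2 p.1 p.2 ≠ 0 := by
        intro h
        have h1 := hm a ha b hb
        rw [h, abs_zero] at h1
        exact hab (abs_nonpos_iff.1 h1)
      by_cases hsep : ∃ q : Fin (d + 1) → ℤ × ℤ, (∀ j, q j ∈ W) ∧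
        ∀ i j, i ≠ j → τ ^ 6 * |(dt2 p.1 p.2 : ℝ)| ≤ |(dt2 (q i) (q j) : ℝ)|
      · have h1 := hTC g W p.1 p.2 hW hp.1 hp.2 hne hm hsep
        have h3 := hbig (r + 1)
        linarith
      · obtain ⟨V, hV1, hV2, hV3⟩ := hTS d τ W p.1 p.2 hτ hτ2 hne hp.1 hp.2 hm hsep
        have hsub : W ⊆ Finset.univ.biUnion V := by
          intro w hw
          obtain ⟨i, hi⟩ := hV2 w hw
          exact Finset.mem_biUnion.2 ⟨i, Finset.mem_univ i, hi⟩
        have hc : (W.card : ℝ) ≤ ∑ i, ((V i).card : ℝ) := by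
          have h1 := (Finset.card_le_card hsub).trans Finset.card_biUnion_le
          exact_mod_cast h1
        have hpX : |(dt2 p.1 p.2 : ℝ)| ≤ X := hWX _ hp.1 _ hp.2
        have hVi : ∀ i, ((V i).card : ℝ) ≤ ((d : ℝ) + 1) ^ r * (L + E) := by
          intro i
          refine ih (V i) (τ ^ 3 * X) (TR_sub hW (hV1 i)) ?_ (fun w hw w' hw' => ?_)
          · have h1 : τ ^ 3 * X * (τ ^ 3) ^ r = X * (τ ^ 3) ^ (r + 1) := by
              rw [pow_succ (τ ^ 3) r]
              ring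
            rw [h1]
            exact hX
          · refine (hV3 i w hw w' hw').trans ?_
            exact mul_le_mul_of_nonneg_left hpX (by positivity)
        calc (W.card : ℝ) ≤ ∑ i, ((V i).card : ℝ) := hc
          _ ≤ ∑ _i : Fin (d + 1), ((d : ℝ) + 1) ^ r * (L + E) :=
            Finset.sum_le_sum fun i _ => hVi i
          _ = ((d : ℝ) + 1) ^ (r + 1) * (L + E) := by
            rw [Finset.sum_const, Finset.card_univ, Fintype.card_fin, nsmul_eq_mul, pow_succ]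
            push_cast
            ring

theorem hTR (hTC : StTC) (hTS : StTS) : StTR := by
  intro d L m ε hd hL hm hε
  obtain ⟨K, hK, hKK⟩ := hTC d L hd hL
  set N : ℕ := d * (d + 1) with hN
  have hN0 : (0 : ℝ) < N := by
    have : 0 < N := by
      rw [hN]
      positivity
    exact_mod_cast this
  set e : ℝ := ε / (6 * N) with he
  have he0 : 0 < e := by
    rw [he]
    positivity
  set r : ℕ := ⌊1 / (3 * e)⌋₊ + 1 with hr
  have hre : 1 < 3 * e * r := by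
    have h1 : 1 / (3 * e) < (r : ℝ) := by
      rw [hr]
      push_cast
      exact Nat.lt_floor_add_one _
    rw [div_lt_iff₀ (by positivity)] at h1
    linarith
  have hL0 : (1 : ℝ) ≤ L := by exact_mod_cast hL
  refine ⟨((d : ℝ) + 1) ^ r * (L + K * |m| * 64 ^ N), by positivity, ?_⟩
  intro B g W hB hW hWB
  have hB0 : (0 : ℝ) < B := by linarith
  set τ : ℝ := B ^ (-e) / 2 with hτ
  have hbe : B ^ (-e) ≤ 1 := Real.rpow_le_one_of_one_le_of_nonpos hB (by linarith)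
  have hbe0 : 0 < B ^ (-e) := Real.rpow_pos_of_pos hB0 _
  have hτ0 : 0 < τ := by
    rw [hτ]
    positivity
  have hτ2 : τ ≤ 1 / 2 := by
    rw [hτ]
    linarith
  have hτ6 : τ ^ 6 ≤ 1 := by
    refine pow_le_one₀ hτ0.le ?_
    linarith
  have h1 : B * (τ ^ 3) ^ r < 1 := by
    have h2 : B * (τ ^ 3) ^ r = B ^ (1 - 3 * e * r) * (1 / 8) ^ r := by
      have h3 : (τ ^ 3) ^ r = (B ^ (-e)) ^ (3 * r) * (1 / 8) ^ r := by
        rw [hτ, div_pow, pow_mul (B ^ (-e)) 3 r, ← mul_pow]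
        congr 1
        ring
      have h4 : (B ^ (-e)) ^ (3 * r) = B ^ (-(3 * e * r)) := by
        rw [← Real.rpow_mul_natCast hB0.le]
        congr 1
        push_cast
        ring
      rw [h3, h4, sub_eq_add_neg, Real.rpow_add hB0, Real.rpow_one]
      ring
    rw [h2]
    have h5 : B ^ (1 - 3 * e * r) ≤ 1 :=
      Real.rpow_le_one_of_one_le_of_nonpos hB (by linarith)
    have h6 : ((1 : ℝ) / 8) ^ r < 1 := by
      refine pow_lt_one₀ (by norm_num) (by norm_num) ?_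
      rw [hr]
      omega
    have h7 : 0 < B ^ (1 - 3 * e * r) := Real.rpow_pos_of_pos hB0 _
    calc B ^ (1 - 3 * e * r) * (1 / 8) ^ r ≤ 1 * (1 / 8) ^ r :=
          mul_le_mul_of_nonneg_right h5 (by positivity)
      _ < 1 := by rw [one_mul]; exact h6
  have h2 : (τ ^ 6) ^ N = B ^ (-ε) / 64 ^ N := by
    have h3 : (τ ^ 6) ^ N = (B ^ (-e)) ^ (6 * N) * (1 / 64) ^ N := by
      rw [hτ, div_pow, pow_mul (B ^ (-e)) 6 N, ← mul_pow]
      congr 1
      ring
    have h4 : (B ^ (-e)) ^ (6 * N) = B ^ (-ε) := by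
      rw [← Real.rpow_mul_natCast hB0.le]
      congr 1
      push_cast
      rw [he]
      field_simp
    rw [h3, h4, one_div, inv_pow, div_eq_mul_inv]
  have key := TR_claim hTS hL hK hτ0 hτ2 (m := m) (fun g W w1 w2 h3 h4 h5 h6 h7 h8 =>
    hKK m (τ ^ 6) g W w1 w2 hm (by positivity) hτ6 h3 h4 h5 h6 h7 h8) g r W B hW h1 hWB
  rw [← hN, h2] at key
  have h3 : K * |m| / (B ^ (-ε) / 64 ^ N) = K * |m| * 64 ^ N * B ^ ε := by
    rw [Real.rpow_neg hB0.le]
    have : B ^ ε ≠ 0 := (Real.rpow_pos_of_pos hB0 _).ne'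
    field_simp
  rw [h3] at key
  have h4 : 1 ≤ B ^ ε := Real.one_le_rpow hB hε.le
  have h5 : (L : ℝ) ≤ L * B ^ ε := le_mul_of_one_le_right (by linarith) h4
  calc (W.card : ℝ) ≤ ((d : ℝ) + 1) ^ r * (L + K * |m| * 64 ^ N * B ^ ε) := key
    _ ≤ ((d : ℝ) + 1) ^ r * ((L + K * |m| * 64 ^ N) * B ^ ε) := by
        refine mul_le_mul_of_nonneg_left ?_ (by positivity)
        rw [add_mul]
        linarith
    _ = ((d : ℝ) + 1) ^ r * (L + K * |m| * 64 ^ N) * B ^ ε := by ring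

end Pool.Agent.Helper6.PU
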